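import Pool.Agent.L5helper69.SV.Defs3

set_option autoImplicit false

namespace Pool.Agent.L5helper90.SV

open Pool.Agent.L5helper69.SV3 Polynomial

lemma exists_poly {M : Type} [AddCommGroup M] [Module ℂ M] [FiniteDimensional ℂ M] (T : M →ₗ[ℂ] M)
    (hT : Function.Injective T) : ∃ P : ℂ[X], P.Monic ∧ P.coeff 0 ≠ 0 ∧ aeval T P = 0 := by
  refine ⟨T.charpoly, LinearMap.charpoly_monic T, ?_, LinearMap.aeval_self_charpoly T⟩
  intro h
  have h1 := LinearMap.det_eq_sign_charpoly_coeff T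
  rw [h, mul_zero] at h1
  have h2 := LinearMap.bot_lt_ker_of_det_eq_zero h1
  rw [LinearMap.ker_eq_bot.mpr hT] at h2
  exact lt_irrefl _ h2

/-- the space of additive functions -/
def VA (G : Type) [Group G] : Submodule ℂ (G → ℂ) where
  carrier := {a | ∀ g h, a (g * h) = a g + a h}
  add_mem' := by
    intro a b ha hb g h
    simp only [Pi.add_apply, ha g h, hb g h]; ring
  zero_mem' := by intro g h; simp
  smul_mem' := by
    intro c a ha g h
    simp only [Pi.smul_apply, smul_eq_mul, ha g h]; ring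

lemma VA_one {G : Type} [Group G] {a : G → ℂ} (ha : a ∈ VA G) : a 1 = 0 := by
  have h := ha 1 1
  rw [mul_one] at h
  simpa using h

lemma VA_inv {G : Type} [Group G] {a : G → ℂ} (ha : a ∈ VA G) (g : G) : a g⁻¹ = - a g := by
  have h := ha g g⁻¹
  rw [mul_inv_cancel, VA_one ha] at h
  linear_combination -h

lemma VA_fin (G : Type) [Group G] [Group.FG G] : FiniteDimensional ℂ (VA G) := by
  obtain ⟨S, hS⟩ := (Group.FG.out : (⊤ : Subgroup G).FG)
  let f : VA G →ₗ[ℂ] (S → ℂ) :=
    { toFun := fun a s => (a : G → ℂ) s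
      map_add' := by intro a b; rfl
      map_smul' := by intro c a; rfl }
  refine FiniteDimensional.of_injective f ?_
  rw [← LinearMap.ker_eq_bot, LinearMap.ker_eq_bot']
  intro a ha
  apply Subtype.ext
  funext g
  have hg : g ∈ Subgroup.closure (S : Set G) := by rw [hS]; trivial
  have ha' : ∀ s ∈ S, (a : G → ℂ) s = 0 := by
    intro s hs
    exact congrFun ha ⟨s, hs⟩
  induction hg using Subgroup.closure_induction with
  | mem x hx => exact ha' x hx
  | one => exact VA_one a.2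
  | mul x y _ _ hx hy =>
    have := a.2 x y
    rw [this, hx, hy]; simp
  | inv x _ hx =>
    rw [VA_inv a.2, hx]; simp

/-- the space of invariant functions -/
def VI {Γ : Type} [Group Γ] (H : Subgroup Γ) : Submodule ℂ (Γ → ℂ) where
  carrier := {a | ∀ g ∈ H, ∀ x, a (g * x) = a x}
  add_mem' := by
    intro a b ha hb g hg x
    simp only [Pi.add_apply, ha g hg x, hb g hg x]
  zero_mem' := by intro g _ x; rfl
  smul_mem' := by
    intro c a ha g hg x
    simp only [Pi.smul_apply, ha g hg x]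

lemma VI_fin {Γ : Type} [Group Γ] (H : Subgroup Γ) [H.FiniteIndex] : FiniteDimensional ℂ (VI H) := by
  classical
  haveI : Finite (Γ ⧸ H) := inferInstance
  haveI : Fintype (Γ ⧸ H) := Fintype.ofFinite _
  let f : VI H →ₗ[ℂ] ((Γ ⧸ H) → ℂ) :=
    { toFun := fun a s => (a : Γ → ℂ) (Quotient.out s)⁻¹
      map_add' := by intro a b; rfl
      map_smul' := by intro c a; rfl }
  refine FiniteDimensional.of_injective f ?_
  rw [← LinearMap.ker_eq_bot, LinearMap.ker_eq_bot']
  intro a ha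
  apply Subtype.ext
  funext x
  -- `x⁻¹ = s h`
  set s : Γ := Quotient.out (QuotientGroup.mk x⁻¹ : Γ ⧸ H) with hs
  have h1 : (QuotientGroup.mk s : Γ ⧸ H) = QuotientGroup.mk x⁻¹ := by
    rw [hs]; exact Quotient.out_eq _
  have h2 : s⁻¹ * x⁻¹ ∈ H := QuotientGroup.eq.mp h1
  have h3 : (a : Γ → ℂ) s⁻¹ = 0 := congrFun ha (QuotientGroup.mk x⁻¹ : Γ ⧸ H)
  have h4 := a.2 (s⁻¹ * x⁻¹) h2 x
  rw [mul_assoc, inv_mul_cancel, mul_one] at h4
  rw [← h4, h3]; rfl

lemma sum_of_aeval {X : Type} (V : Submodule ℂ (X → ℂ)) (φ : X → X)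
    (T : V →ₗ[ℂ] V) (hT : ∀ a : V, ∀ x, (T a : X → ℂ) x = (a : X → ℂ) (φ x)) {P : ℂ[X]}
    (hP : aeval T P = 0) (a : V) (x : X) (n : ℕ) :
    ∑ i ∈ Finset.range (P.natDegree + 1), P.coeff i * (a : X → ℂ) (φ^[n + i] x) = 0 := by
  have hi : ∀ (i : ℕ) (a : V) (y : X), ((T ^ i) a : X → ℂ) y = (a : X → ℂ) (φ^[i] y) := by
    intro i
    induction i with
    | zero => intro a y; rfl
    | succ i ih =>
      intro a y
      rw [pow_succ, Module.End.mul_apply, ih, hT, Function.iterate_succ_apply']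
  have h1 : (∑ c ∈ Finset.range (P.natDegree + 1), P.coeff c • (T ^ c) a : V) = 0 := by
    have h := congrArg (fun f : V →ₗ[ℂ] V => f a) hP
    simp only [aeval_eq_sum_range, LinearMap.sum_apply, LinearMap.smul_apply,
      LinearMap.zero_apply] at h
    exact h
  have h2 : ((∑ c ∈ Finset.range (P.natDegree + 1), P.coeff c • (T ^ c) a : V) : X → ℂ) (φ^[n] x) =
      ∑ c ∈ Finset.range (P.natDegree + 1), P.coeff c * (a : X → ℂ) (φ^[n + c] x) := by
    rw [Submodule.coe_sum, Finset.sum_apply]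
    refine Finset.sum_congr rfl ?_
    intro c _
    rw [Submodule.coe_smul, Pi.smul_apply, smul_eq_mul, hi, add_comm n c,
      Function.iterate_add_apply]
  rw [← h2, h1]; rfl

theorem cos : St_Cos := by
  intro Γ _ _ H _ _ Φ hΦ hΦs
  haveI : Group.FG H := inferInstance
  haveI := VA_fin H
  haveI := VI_fin H
  -- the restriction of `Φ`
  let φ : H → H := fun h => ⟨Φ h, hΦ h h.2⟩
  have hφi : ∀ (n : ℕ) (g : H), ((φ^[n] g : H) : Γ) = Φ^[n] (g : Γ) := by
    intro n
    induction n with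
    | zero => intro g; rfl
    | succ n ih =>
      intro g
      rw [Function.iterate_succ_apply, ih, Function.iterate_succ_apply]
  let T1 : VA H →ₗ[ℂ] VA H :=
    { toFun := fun a => ⟨fun h => (a : H → ℂ) (φ h), by
        intro g h
        have h1 : φ (g * h) = φ g * φ h := by
          apply Subtype.ext
          simp [φ]
        simp only [h1]
        exact a.2 _ _⟩
      map_add' := by intro a b; rfl
      map_smul' := by intro c a; rfl }
  let T2 : VI H →ₗ[ℂ] VI H :=
    { toFun := fun a => ⟨fun x => (a : Γ → ℂ) (Φ x), by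
        intro g hg x
        simp only [map_mul]
        exact a.2 _ (hΦ g hg) _⟩
      map_add' := by intro a b; rfl
      map_smul' := by intro c a; rfl }
  have hT1 : Function.Injective T1 := by
    rw [← LinearMap.ker_eq_bot, LinearMap.ker_eq_bot']
    intro a ha
    apply Subtype.ext
    funext h
    have h1 : (T1 a : H → ℂ) ⟨Φ.symm h, hΦs h h.2⟩ = 0 := by rw [ha]; rfl
    have h2 : φ ⟨Φ.symm h, hΦs h h.2⟩ = h := by
      apply Subtype.ext
      simp [φ]
    have h3 : (a : H → ℂ) (φ ⟨Φ.symm h, hΦs h h.2⟩) = 0 := h1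
    rw [h2] at h3
    exact h3
  have hT2 : Function.Injective T2 := by
    rw [← LinearMap.ker_eq_bot, LinearMap.ker_eq_bot']
    intro a ha
    apply Subtype.ext
    funext x
    have h1 : (T2 a : Γ → ℂ) (Φ.symm x) = 0 := by rw [ha]; rfl
    have h3 : (a : Γ → ℂ) (Φ (Φ.symm x)) = 0 := h1
    rw [MulEquiv.apply_symm_apply] at h3
    exact h3
  obtain ⟨P1, hm1, hc1, ha1⟩ := exists_poly T1 hT1
  obtain ⟨P2, hm2, hc2, ha2⟩ := exists_poly T2 hT2
  refine ⟨P1 * P2, hm1.mul hm2, ?_, ?_, ?_⟩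
  · rw [mul_coeff_zero]; exact mul_ne_zero hc1 hc2
  · intro a ha g hg n
    have h0 : aeval T1 (P1 * P2) = 0 := by rw [map_mul, ha1, zero_mul]
    have := sum_of_aeval (VA H) φ T1 (fun a x => rfl) h0
      ⟨fun h : H => a h, fun g h => ha g g.2 h h.2⟩ ⟨g, hg⟩ n
    refine Eq.trans ?_ this
    refine Finset.sum_congr rfl ?_
    intro i _
    congr 1
    show a (Φ^[n + i] g) = a ((φ^[n + i] ⟨g, hg⟩ : H) : Γ)
    rw [hφi]
  · intro a ha x n
    have h0 : aeval T2 (P1 * P2) = 0 := by rw [map_mul, ha2, mul_zero]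
    exact sum_of_aeval (VI H) Φ T2 (fun a x => rfl) h0 ⟨a, ha⟩ x n

end Pool.Agent.L5helper90.SV
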